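import Pool.Agent.N822.TO.Stm

/-!
# TO/FL (helper592): random functions with few points in every thin box tube
-/

set_option autoImplicit false

namespace Pool.Agent.N592.TO

open Finset Pool.Agent.N822.TO

open scoped Classical in
/-- the union bound with exponential moments -/
theorem exists_good {I Y T : Type} [Fintype I] [Fintype Y] [Nonempty Y] [Fintype T]
    (R : T → Y → I → Prop) (c : ℝ)
    (hR : ∀ t, ∑ i, ((univ.filter (fun y => R t y i)).card : ℝ) ≤ Fintype.card Y * c) (L : ℕ)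
    (hL : (Fintype.card T : ℝ) * Real.exp c < 2 ^ L) :
    ∃ f : I → Y, ∀ t, (univ.filter (fun i => R t (f i) i)).card < L := by
  by_contra hcon
  push Not at hcon
  have hY : (0 : ℝ) < Fintype.card Y := by exact_mod_cast Fintype.card_pos
  have h1 : ∀ t, ∑ f : I → Y, (2 : ℝ) ^ (univ.filter (fun i => R t (f i) i)).card ≤
      (Fintype.card Y : ℝ) ^ (Fintype.card I) * Real.exp c := by
    intro t
    have h2 : ∀ f : I → Y, (2 : ℝ) ^ (univ.filter (fun i => R t (f i) i)).card =
        ∏ i, (if R t (f i) i then (2 : ℝ) else 1) := by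
      intro f
      rw [Finset.prod_ite, Finset.prod_const, Finset.prod_const_one, mul_one]
    have h3 : ∏ i : I, ∑ y : Y, (if R t y i then (2 : ℝ) else 1) =
        ∑ f : I → Y, ∏ i, (if R t (f i) i then (2 : ℝ) else 1) := by
      rw [Finset.prod_univ_sum, Fintype.piFinset_univ]
    simp_rw [h2]
    rw [← h3]
    have h4 : ∀ i : I, ∑ y : Y, (if R t y i then (2 : ℝ) else 1) ≤
        Fintype.card Y * Real.exp (((univ.filter (fun y => R t y i)).card : ℝ) / Fintype.card Y) := by
      intro i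
      have h5 : ∑ y : Y, (if R t y i then (2 : ℝ) else 1) =
          Fintype.card Y + ((univ.filter (fun y => R t y i)).card : ℝ) := by
        have h6 : ∀ y : Y, (if R t y i then (2 : ℝ) else 1) = 1 + (if R t y i then (1 : ℝ) else 0) := by
          intro y
          split_ifs <;> norm_num
        simp_rw [h6]
        rw [Finset.sum_add_distrib, Finset.sum_boole]
        simp
      rw [h5]
      have h7 := Real.add_one_le_exp
        (((univ.filter (fun y => R t y i)).card : ℝ) / Fintype.card Y)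
      calc (Fintype.card Y : ℝ) + ((univ.filter (fun y => R t y i)).card : ℝ)
          = Fintype.card Y *
            (((univ.filter (fun y => R t y i)).card : ℝ) / Fintype.card Y + 1) := by
            field_simp
            ring
        _ ≤ _ := mul_le_mul_of_nonneg_left h7 hY.le
    calc ∏ i : I, ∑ y : Y, (if R t y i then (2 : ℝ) else 1)
        ≤ ∏ i : I, (Fintype.card Y : ℝ) *
          Real.exp (((univ.filter (fun y => R t y i)).card : ℝ) / Fintype.card Y) := by
          refine Finset.prod_le_prod (fun i _ => ?_) (fun i _ => h4 i)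
          refine Finset.sum_nonneg fun y _ => ?_
          split_ifs <;> norm_num
      _ = (Fintype.card Y : ℝ) ^ (Fintype.card I) *
          Real.exp (∑ i, ((univ.filter (fun y => R t y i)).card : ℝ) / Fintype.card Y) := by
          rw [Finset.prod_mul_distrib, Finset.prod_const, Real.exp_sum]
          rfl
      _ ≤ _ := by
          refine mul_le_mul_of_nonneg_left (Real.exp_le_exp.2 ?_) (by positivity)
          rw [← Finset.sum_div, div_le_iff₀ hY, mul_comm c]
          exact hR t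
  have h2 : (2 : ℝ) ^ L * (Fintype.card Y : ℝ) ^ (Fintype.card I) ≤
      ∑ f : I → Y, ∑ t, (2 : ℝ) ^ (univ.filter (fun i => R t (f i) i)).card := by
    have h3 : ∑ _f : I → Y, (2 : ℝ) ^ L = (2 : ℝ) ^ L * (Fintype.card Y : ℝ) ^ (Fintype.card I) := by
      rw [Finset.sum_const, Finset.card_univ, Fintype.card_fun, nsmul_eq_mul]
      push_cast
      ring
    rw [← h3]
    refine Finset.sum_le_sum fun f _ => ?_
    obtain ⟨t, ht⟩ := hcon f
    calc (2 : ℝ) ^ L ≤ 2 ^ (univ.filter (fun i => R t (f i) i)).card :=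
          pow_le_pow_right₀ (by norm_num) ht
      _ ≤ _ := Finset.single_le_sum
          (f := fun t => (2 : ℝ) ^ (univ.filter (fun i => R t (f i) i)).card)
          (fun t _ => by positivity) (Finset.mem_univ t)
  rw [Finset.sum_comm] at h2
  have h3 := h2.trans (Finset.sum_le_sum fun t _ => h1 t)
  rw [Finset.sum_const, Finset.card_univ, nsmul_eq_mul] at h3
  have h4 : (0 : ℝ) < (Fintype.card Y : ℝ) ^ (Fintype.card I) := by positivity
  have h5 : (2 : ℝ) ^ L * (Fintype.card Y : ℝ) ^ (Fintype.card I) <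
      (2 : ℝ) ^ L * (Fintype.card Y : ℝ) ^ (Fintype.card I) :=
    calc _ ≤ (Fintype.card T : ℝ) * ((Fintype.card Y : ℝ) ^ (Fintype.card I) * Real.exp c) := h3
      _ = ((Fintype.card T : ℝ) * Real.exp c) * (Fintype.card Y : ℝ) ^ (Fintype.card I) := by ring
      _ < _ := mul_lt_mul_of_pos_right hL h4
  exact lt_irrefl _ h5

open scoped Classical in
/-- few integers in a short interval -/
theorem card_short (m : ℕ) (z : ℝ) :
    (univ.filter (fun y : Fin m => |((y : ℕ) : ℝ) - z| ≤ 5)).card ≤ 11 := by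
  have h1 : (univ.filter (fun y : Fin m => |((y : ℕ) : ℝ) - z| ≤ 5)).card ≤
      (Finset.Icc ⌈z - 5⌉ ⌊z + 5⌋).card := by
    refine Finset.card_le_card_of_injOn (fun y => ((y : ℕ) : ℤ)) ?_ ?_
    · intro y hy
      have h2 := (Finset.mem_filter.1 hy).2
      rw [abs_le] at h2
      rw [Finset.mem_coe, Finset.mem_Icc]
      constructor
      · rw [Int.ceil_le]
        push_cast
        linarith
      · rw [Int.le_floor]
        push_cast
        linarith
    · intro y _ y' _ h
      have h3 : ((y : ℕ) : ℤ) = ((y' : ℕ) : ℤ) := h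
      exact Fin.ext (by exact_mod_cast h3)
  refine h1.trans ?_
  rw [Int.card_Icc]
  have h4 : ⌊z + 5⌋ ≤ ⌈z - 5⌉ + 10 := by
    have h5 : (⌊z + 5⌋ : ℝ) ≤ z + 5 := Int.floor_le _
    have h6 : z - 5 ≤ (⌈z - 5⌉ : ℝ) := Int.le_ceil _
    have h7 : (⌊z + 5⌋ : ℝ) ≤ ((⌈z - 5⌉ + 10 : ℤ) : ℝ) := by
      push_cast
      linarith
    exact_mod_cast h7
  omega

/-- the condition on a point of the grid -/
def Cond {D : ℕ} (j : Fin (D + 1)) (a B : Fin (D + 1) → ℝ) (c : Fin (D + 1) → ℝ) : Prop :=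
  ∀ k, k ≠ j → |c k - a k * c j - B k| ≤ 5

open scoped Classical in
theorem card_cond (D m : ℕ) (j : Fin (D + 1)) (a B : Fin (D + 1) → ℝ) :
    (univ.filter (fun c : Fin (D + 1) → Fin m => Cond j a B (fun k => ((c k : ℕ) : ℝ)))).card ≤
      m * 11 ^ D := by
  have h1 : (univ.filter (fun c : Fin (D + 1) → Fin m =>
      Cond j a B (fun k => ((c k : ℕ) : ℝ)))) ⊆
      (univ : Finset (Fin m)).biUnion (fun y => Fintype.piFinset (fun k : Fin (D + 1) =>
        if k = j then {y} else univ.filter (fun x : Fin m =>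
          |((x : ℕ) : ℝ) - (a k * ((y : ℕ) : ℝ) + B k)| ≤ 5))) := by
    intro c hc
    have h2 := (Finset.mem_filter.1 hc).2
    rw [Finset.mem_biUnion]
    refine ⟨c j, Finset.mem_univ _, ?_⟩
    rw [Fintype.mem_piFinset]
    intro k
    by_cases hk : k = j
    · rw [if_pos hk, Finset.mem_singleton, hk]
    · rw [if_neg hk, Finset.mem_filter]
      refine ⟨Finset.mem_univ _, ?_⟩
      have h3 := h2 k hk
      rwa [sub_sub] at h3
  refine (Finset.card_le_card h1).trans (Finset.card_biUnion_le.trans ?_)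
  have h4 : ∀ y : Fin m, (Fintype.piFinset (fun k : Fin (D + 1) =>
        if k = j then {y} else univ.filter (fun x : Fin m =>
          |((x : ℕ) : ℝ) - (a k * ((y : ℕ) : ℝ) + B k)| ≤ 5))).card ≤ 11 ^ D := by
    intro y
    rw [Fintype.card_piFinset]
    calc _ ≤ ∏ k : Fin (D + 1), (if k = j then 1 else 11) := by
          refine Finset.prod_le_prod' fun k _ => ?_
          by_cases hk : k = j
          · rw [if_pos hk, if_pos hk, Finset.card_singleton]
          · rw [if_neg hk, if_neg hk]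
            exact card_short m _
      _ = 11 ^ D := by
          rw [Finset.prod_ite, Finset.prod_const, Finset.prod_const, one_pow, one_mul]
          congr 1
          rw [Finset.filter_not, Finset.filter_eq', if_pos (Finset.mem_univ j),
            Finset.card_sdiff_of_subset (Finset.subset_univ _), Finset.card_univ, Fintype.card_fin,
            Finset.card_singleton]
          omega
  calc _ ≤ ∑ _y : Fin m, 11 ^ D := Finset.sum_le_sum fun y _ => h4 y
    _ = m * 11 ^ D := by rw [Finset.sum_const, Finset.card_univ, Fintype.card_fin, smul_eq_mul]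

open scoped Classical in
theorem sum_cond (D m : ℕ) (j : Fin (D + 1)) (a B : Fin (D + 1) → ℝ) :
    ∑ i : Fin D → Fin m, (univ.filter (fun y : Fin m => Cond j a B
      (Fin.cons ((y : ℕ) : ℝ) (fun t => ((i t : ℕ) : ℝ))))).card ≤ m * 11 ^ D := by
  have h1 : ∑ i : Fin D → Fin m, (univ.filter (fun y : Fin m => Cond j a B
      (Fin.cons ((y : ℕ) : ℝ) (fun t => ((i t : ℕ) : ℝ))))).card =
      ((univ : Finset (Fin D → Fin m)).sigma fun i => univ.filter (fun y : Fin m => Cond j a B
      (Fin.cons ((y : ℕ) : ℝ) (fun t => ((i t : ℕ) : ℝ))))).card := by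
    rw [Finset.card_sigma]
  rw [h1]
  refine le_trans ?_ (card_cond D m j a B)
  refine Finset.card_le_card_of_injOn (fun p => Fin.cons p.2 p.1) ?_ ?_
  · rintro ⟨i, y⟩ hp
    rw [Finset.mem_coe, Finset.mem_sigma, Finset.mem_filter] at hp
    rw [Finset.mem_coe, Finset.mem_filter]
    refine ⟨Finset.mem_univ _, ?_⟩
    have h2 := hp.2.2
    have h3 : (fun k => (((Fin.cons y i : Fin (D + 1) → Fin m) k : ℕ) : ℝ)) =
        Fin.cons ((y : ℕ) : ℝ) (fun t => ((i t : ℕ) : ℝ)) := by
      funext k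
      refine Fin.cases ?_ (fun t => ?_) k
      · simp
      · simp
    show Cond j a B (fun k => (((Fin.cons y i : Fin (D + 1) → Fin m) k : ℕ) : ℝ))
    rw [h3]
    exact h2
  · rintro ⟨i, y⟩ _ ⟨i', y'⟩ _ h
    have h2 : (Fin.cons y i : Fin (D + 1) → Fin m) = Fin.cons y' i' := h
    obtain ⟨h3, h4⟩ := Fin.cons_injective2 h2
    rw [h3, h4]

theorem pt_bound {D m : ℕ} (f : (Fin D → Fin m) → Fin m) (i : Fin D → Fin m) (k : Fin (D + 1)) :
    0 ≤ pt f i k ∧ pt f i k + 1 ≤ m := by
  unfold pt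
  refine Fin.cases ?_ (fun t => ?_) k
  · rw [Fin.cons_zero]
    exact ⟨Nat.cast_nonneg _, by exact_mod_cast (f i).2⟩
  · rw [Fin.cons_succ]
    exact ⟨Nat.cast_nonneg _, by exact_mod_cast (i t).2⟩

theorem fl : S_FL := by
  intro D _
  classical
  obtain ⟨A', hA'⟩ := pow_unbounded_of_one_lt
    (((D + 1 : ℕ) : ℝ) * 27 ^ (D + 1) * Real.exp (11 ^ D)) (one_lt_two : (1 : ℝ) < 2)
  refine ⟨A' + 2 * (D + 1), fun b => ?_⟩
  obtain ⟨m, hm⟩ : ∃ m : ℕ, m = 2 ^ b := ⟨_, rfl⟩
  rw [← hm]
  have hm1 : 1 ≤ m := by rw [hm]; exact Nat.one_le_two_pow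
  have hm1' : (1 : ℝ) ≤ m := by exact_mod_cast hm1
  have hne : Nonempty (Fin m) := ⟨⟨0, hm1⟩⟩
  obtain ⟨f, hf⟩ := exists_good (I := Fin D → Fin m) (Y := Fin m)
    (T := Fin (D + 1) × (Fin (D + 1) → Fin (2 * m + 1)) × (Fin (D + 1) → Fin (7 * m + 1)))
    (fun t y i => Cond t.1 (fun k => ((t.2.1 k : ℕ) : ℝ) / m - 1)
      (fun k => ((t.2.2 k : ℕ) : ℝ) - 3 * m)
      (Fin.cons ((y : ℕ) : ℝ) (fun s => ((i s : ℕ) : ℝ)))) (11 ^ D) (by
      intro t
      have h1 := sum_cond D m t.1 (fun k => ((t.2.1 k : ℕ) : ℝ) / m - 1)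
        (fun k => ((t.2.2 k : ℕ) : ℝ) - 3 * m)
      rw [Fintype.card_fin]
      exact_mod_cast h1) ((A' + 2 * (D + 1)) * (b + 1) + 1) (by
      have h1 : (Fintype.card (Fin (D + 1) × (Fin (D + 1) → Fin (2 * m + 1)) ×
          (Fin (D + 1) → Fin (7 * m + 1))) : ℝ) ≤
          ((D + 1 : ℕ) : ℝ) * 27 ^ (D + 1) * 2 ^ (2 * (D + 1) * b) := by
        rw [Fintype.card_prod, Fintype.card_prod, Fintype.card_fun, Fintype.card_fun,
          Fintype.card_fin, Fintype.card_fin, Fintype.card_fin]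
        have h2 : (2 * m + 1) ^ (D + 1) * (7 * m + 1) ^ (D + 1) ≤
            27 ^ (D + 1) * 2 ^ (2 * (D + 1) * b) := by
          calc (2 * m + 1) ^ (D + 1) * (7 * m + 1) ^ (D + 1)
              ≤ (3 * m) ^ (D + 1) * (8 * m) ^ (D + 1) :=
                Nat.mul_le_mul (Nat.pow_le_pow_left (by omega) _)
                  (Nat.pow_le_pow_left (by omega) _)
            _ = 24 ^ (D + 1) * (m * m) ^ (D + 1) := by
                rw [← mul_pow, ← mul_pow]
                congr 1
                ring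
            _ ≤ 27 ^ (D + 1) * (m * m) ^ (D + 1) :=
                Nat.mul_le_mul_right _ (Nat.pow_le_pow_left (by norm_num) _)
            _ = _ := by
                rw [hm, ← pow_add, ← pow_mul]
                congr 2
                ring
        have h3 : (D + 1) * ((2 * m + 1) ^ (D + 1) * (7 * m + 1) ^ (D + 1)) ≤
            (D + 1) * (27 ^ (D + 1) * 2 ^ (2 * (D + 1) * b)) := Nat.mul_le_mul_left _ h2
        calc (((D + 1) * ((2 * m + 1) ^ (D + 1) * (7 * m + 1) ^ (D + 1)) : ℕ) : ℝ)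
            ≤ (((D + 1) * (27 ^ (D + 1) * 2 ^ (2 * (D + 1) * b)) : ℕ) : ℝ) := by
              exact_mod_cast h3
          _ = _ := by push_cast; ring
      calc _ ≤ (((D + 1 : ℕ) : ℝ) * 27 ^ (D + 1) * 2 ^ (2 * (D + 1) * b)) *
            Real.exp (11 ^ D) := mul_le_mul_of_nonneg_right h1 (Real.exp_pos _).le
        _ = (((D + 1 : ℕ) : ℝ) * 27 ^ (D + 1) * Real.exp (11 ^ D)) *
            2 ^ (2 * (D + 1) * b) := by ring
        _ < 2 ^ A' * 2 ^ (2 * (D + 1) * b) := mul_lt_mul_of_pos_right hA' (by positivity)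
        _ = 2 ^ (A' + 2 * (D + 1) * b) := (pow_add _ _ _).symm
        _ ≤ 2 ^ ((A' + 2 * (D + 1)) * (b + 1) + 1) :=
            pow_le_pow_right₀ (by norm_num) (by nlinarith [Nat.zero_le (A' * b)]))
  refine ⟨f, fun j α β hα => ?_⟩
  by_cases hemp : Nonempty {i : Fin D → Fin m // ∀ k, k ≠ j → |pt f i k - α k * pt f i j - β k| ≤ 3}
  swap
  · have h1 : cnt f j α β = 0 := by
      unfold cnt
      rw [Nat.card_eq_zero]
      exact Or.inl (not_nonempty_iff.1 hemp)
    rw [h1]
    exact Nat.zero_le _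
  obtain ⟨i0, hi0⟩ := hemp
  have hu : ∀ k, ∃ u : Fin (2 * m + 1), |α k - (((u : ℕ) : ℝ) / m - 1)| ≤ 1 / m := by
    intro k
    have h1 := abs_le.1 (hα k)
    have h2 : 0 ≤ (α k + 1) * m := mul_nonneg (by linarith) (by linarith)
    have h3 : (⌊(α k + 1) * m⌋₊ : ℝ) ≤ (α k + 1) * m := Nat.floor_le h2
    have h4 : (α k + 1) * m < ⌊(α k + 1) * m⌋₊ + 1 := Nat.lt_floor_add_one _
    refine ⟨⟨⌊(α k + 1) * m⌋₊, ?_⟩, ?_⟩
    · have h5 : (⌊(α k + 1) * m⌋₊ : ℝ) ≤ ((2 * m : ℕ) : ℝ) := by
        push_cast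
        nlinarith
      have h6 : ⌊(α k + 1) * m⌋₊ ≤ 2 * m := by exact_mod_cast h5
      omega
    · have h5 : α k - ((⌊(α k + 1) * m⌋₊ : ℝ) / m - 1) =
          ((α k + 1) * m - ⌊(α k + 1) * m⌋₊) / m := by
        field_simp
        ring
      show |α k - ((⌊(α k + 1) * m⌋₊ : ℝ) / m - 1)| ≤ 1 / m
      rw [h5, abs_div, abs_of_nonneg (show (0 : ℝ) ≤ m by linarith)]
      apply div_le_div_of_nonneg_right _ (by linarith)
      rw [abs_le]
      constructor <;> linarith
  have hv : ∀ k, ∃ v : Fin (7 * m + 1), k ≠ j → |β k - (((v : ℕ) : ℝ) - 3 * m)| ≤ 1 := by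
    intro k
    by_cases hk : k = j
    · exact ⟨0, fun h => absurd hk h⟩
    · have h1 := abs_le.1 (hi0 k hk)
      have h2 := abs_le.1 (hα k)
      have h3 := pt_bound f i0 k
      have h4 := pt_bound f i0 j
      have h5 : α k * pt f i0 j ≤ m - 1 := by nlinarith
      have h6 : -((m : ℝ) - 1) ≤ α k * pt f i0 j := by nlinarith
      have h7 : 0 ≤ β k + 3 * m := by linarith
      have h8 : β k + 3 * m ≤ 7 * m := by linarith
      have h9 : (⌊β k + 3 * m⌋₊ : ℝ) ≤ β k + 3 * m := Nat.floor_le h7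
      have h10 : β k + 3 * m < ⌊β k + 3 * m⌋₊ + 1 := Nat.lt_floor_add_one _
      refine ⟨⟨⌊β k + 3 * m⌋₊, ?_⟩, fun _ => ?_⟩
      · have h11 : (⌊β k + 3 * m⌋₊ : ℝ) ≤ ((7 * m : ℕ) : ℝ) := by
          push_cast
          linarith
        have h12 : ⌊β k + 3 * m⌋₊ ≤ 7 * m := by exact_mod_cast h11
        omega
      · show |β k - ((⌊β k + 3 * m⌋₊ : ℝ) - 3 * m)| ≤ 1
        rw [abs_le]
        constructor <;> linarith
  choose u hu using hu
  choose v hv using hv
  have h1 := hf (j, u, v)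
  have h2 : cnt f j α β ≤ (univ.filter (fun i : Fin D → Fin m => Cond j
      (fun k => ((u k : ℕ) : ℝ) / m - 1) (fun k => ((v k : ℕ) : ℝ) - 3 * m)
      (Fin.cons ((f i : ℕ) : ℝ) (fun s => ((i s : ℕ) : ℝ))))).card := by
    unfold cnt
    rw [Nat.card_eq_fintype_card, Fintype.card_subtype]
    refine Finset.card_le_card fun i hi => ?_
    rw [Finset.mem_filter] at hi ⊢
    refine ⟨Finset.mem_univ _, fun k hk => ?_⟩
    have h3 := abs_le.1 (hi.2 k hk)
    have h4 := pt_bound f i j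
    have h5 := abs_le.1 (hu k)
    have h6 := abs_le.1 (hv k hk)
    have h7 : |(α k - (((u k : ℕ) : ℝ) / m - 1)) * pt f i j| ≤ 1 := by
      rw [abs_mul, abs_of_nonneg h4.1]
      have h9 : pt f i j ≤ m := by linarith [h4.2]
      calc _ ≤ 1 / (m : ℝ) * m := mul_le_mul (hu k) h9 h4.1 (by positivity)
        _ = 1 := by field_simp
    have h8 := abs_le.1 h7
    show |pt f i k - (((u k : ℕ) : ℝ) / m - 1) * pt f i j - (((v k : ℕ) : ℝ) - 3 * m)| ≤ 5
    rw [abs_le]
    constructor <;> nlinarith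
  have h3 : cnt f j α β < (A' + 2 * (D + 1)) * (b + 1) + 1 := lt_of_le_of_lt h2 h1
  omega

end Pool.Agent.N592.TO
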